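import Pool.Agent.R4S.Codegree

/-!
# Codegrees in the colour classes of a counterexample to R(3,3,3,3) = 51

If the edges of a complete graph on at least 51 vertices are coloured with 4 colours without a
monochromatic triangle, then for no colour do all pairs of vertices whose edge has another colour
have the same number of common neighbours in that colour. In particular no colour class is a
strongly regular graph (`Pool.Agent.R4S.no_srg`).

Definitions: `Pool/Agent/R4S/Defs.lean` (`NoMono`, `colourGraph`).
-/

namespace Pool.Agent.Results.MP_f56d90_co.Codegrees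

open Pool.Agent.R4S

theorem result (V : Type) [Fintype V] [DecidableEq V] (c : Sym2 V → Fin 4)
    (hn : 51 ≤ Fintype.card V) (hc : NoMono c) (i : Fin 4) (m : ℕ) :
    ∃ u v : V, u ≠ v ∧ c s(u, v) ≠ i ∧
      (Finset.univ.filter
        (fun w => (colourGraph c i).Adj u w ∧ (colourGraph c i).Adj w v)).card ≠ m := by
  by_contra h
  push Not at h
  refine codegree_not_const hc hn i m fun u v huv hi => ?_
  rw [← h u v huv hi]
  congr 1
  ext w
  rw [Finset.mem_inter, mem_nb, mem_nb, Finset.mem_filter]
  constructor
  · rintro ⟨h1, h2⟩
    exact ⟨Finset.mem_univ _, h1, (show (colourGraph c i).Adj v w from h2).symm⟩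
  · rintro ⟨-, h1, h2⟩
    exact ⟨h1, h2.symm⟩

end Pool.Agent.Results.MP_f56d90_co.Codegrees
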