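import Pool.Agent.R4S.FourCycle

/-!
# Four-cycles in the colour classes

Let the edges of a complete graph on `n ≥ 50` vertices be coloured with 4 colours without a
monochromatic triangle. Then the graph of every colour contains a 4-cycle, unless `n = 50` and this
graph is strongly regular with the parameters (50, 7, 0, 1) of the Hoffman-Singleton graph. In
particular every colour class contains a 4-cycle if `n ≥ 51`.

Definitions: `Pool/Agent/R4S/Defs.lean` (`NoMono`, `colourGraph`).
-/

namespace Pool.Agent.Results.MP_f56d90_co.FourCycles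

open Pool.Agent.R4S

theorem result (V : Type) [Fintype V] [DecidableEq V] (c : Sym2 V → Fin 4)
    (hn : 50 ≤ Fintype.card V) (hc : NoMono c) (i : Fin 4) :
    (∃ a x b y : V, a ≠ b ∧ x ≠ y ∧ (colourGraph c i).Adj a x ∧ (colourGraph c i).Adj x b ∧
      (colourGraph c i).Adj b y ∧ (colourGraph c i).Adj y a) ∨
      (colourGraph c i).IsSRGWith 50 7 0 1 := by
  rcases codegree_or_moore hc hn i with ⟨a, b, hab, h2⟩ | h
  · left
    obtain ⟨x, hx, y, hy, hxy⟩ := Finset.one_lt_card.mp h2
    rw [Finset.mem_inter, mem_nb, mem_nb] at hx hy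
    have hxa : (colourGraph c i).Adj a x := hx.1
    have hxb : (colourGraph c i).Adj b x := hx.2
    have hya : (colourGraph c i).Adj a y := hy.1
    have hyb : (colourGraph c i).Adj b y := hy.2
    exact ⟨a, x, b, y, hab, hxy, hxa, hxb.symm, hyb, hya.symm⟩
  · exact Or.inr h

end Pool.Agent.Results.MP_f56d90_co.FourCycles
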