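import Pool.Agent.R4S.Greatest

/-!
# 4-colourings without monochromatic triangles that are association schemes

The largest `n` for which the edges of `K_n` have a 4-colouring without monochromatic triangle
that is an association scheme is 41.

Definitions: `Pool/Agent/R4S/Defs.lean` (`NoMono`), `Pool/Agent/R4S/Scheme.lean` (`IsScheme`).
-/

namespace Pool.Agent.Results.MP_f56d90_co.SchemeColourings

open Pool.Agent.R4S

theorem result : IsGreatest {n : ℕ | ∃ (c : Sym2 (Fin n) → Fin 4)
    (p : Fin 4 → Fin 4 → Fin 4 → ℕ), NoMono c ∧ IsScheme c p} 41 :=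
  isGreatest

end Pool.Agent.Results.MP_f56d90_co.SchemeColourings
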