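import Pool.Agent.R4S.Aut

/-!
# Symmetries of prime order of a counterexample to R(3,3,3,3) = 51

Let the edges of a complete graph on `n ≥ 51` vertices be coloured with 4 colours without a
monochromatic triangle, and let `g` be a symmetry of prime order `p ≥ 7` of the colouring, which
may permute the colours. Then `g` has no fixed vertex, so that `p` divides `n`, or `g` has exactly
one fixed vertex and `(p, n)` is `(7, 57)` or `(13, 53)`.

Definition: `Pool/Agent/R4S/Defs.lean` (`NoMono`).
-/

namespace Pool.Agent.Results.MP_f56d90_co.Symmetries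

open Pool.Agent.R4S

theorem result (V : Type) [Fintype V] [DecidableEq V] (c : Sym2 V → Fin 4)
    (hn : 51 ≤ Fintype.card V) (hc : NoMono c) (g : Equiv.Perm V) (σ : Equiv.Perm (Fin 4))
    (hg : ∀ u v : V, u ≠ v → c s(g u, g v) = σ (c s(u, v))) (p : ℕ) (hp : p.Prime) (hp7 : 7 ≤ p)
    (ho : orderOf g = p) :
    ((∀ v, g v ≠ v) ∧ p ∣ Fintype.card V) ∨
      ((∃! v, g v = v) ∧ (p = 7 ∧ Fintype.card V = 57 ∨ p = 13 ∧ Fintype.card V = 53)) := by
  have hσ : σ = 1 := perm_colour_trivial hc hn hg hp hp7 (by rw [← ho]; exact pow_orderOf_eq_one g)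
  subst hσ
  exact aut_main hc hn hg hp hp7 ho

end Pool.Agent.Results.MP_f56d90_co.Symmetries
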